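import Pool.Agent.Y645.UP.Stm

/-!
Task UP-MASK for helper645 (helper459): remove the extra transcendental coordinate.
-/

set_option autoImplicit false

namespace Pool.Agent.Y459.UP

open MvPolynomial Pool.Agent.Y645.UL Pool.Agent.Y645.UM Pool.Agent.Y645.UP

section

variable {k L L1 J : Type} [Field k] [Field L] [Field L1] [Algebra k L] [Algebra L L1]
  [Algebra k L1] [IsScalarTower k L L1] {t : L1}

/-- the tuple in the bigger field -/
def up (L1 : Type) [Field L1] [Algebra L L1] (x : J → L) : J → L1 := fun j => algebraMap L L1 (x j)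

theorem not_alg (ht : Transcendental L t) (S : Set L1) (hS : S ⊆ Set.range (algebraMap L L1)) :
    ¬ IsAlgebraic (Algebra.adjoin k S) t := by
  rintro ⟨p, hp0, hp⟩
  have hA : ∀ a : Algebra.adjoin k S, (a : L1) ∈ Set.range (algebraMap L L1) := by
    intro a
    have h1 : Algebra.adjoin k S ≤ (IsScalarTower.toAlgHom k L L1).range := by
      refine Algebra.adjoin_le ?_
      intro s hs
      obtain ⟨l, rfl⟩ := hS hs
      exact ⟨l, rfl⟩
    obtain ⟨l, hl⟩ := h1 a.2
    exact ⟨l, hl⟩
  have h2 : p.map (algebraMap (Algebra.adjoin k S) L1) ∈ Polynomial.lifts (algebraMap L L1) := by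
    rw [Polynomial.lifts_iff_coeff_lifts]
    intro n
    rw [Polynomial.coeff_map]
    exact hA _
  obtain ⟨q, hq⟩ := (Polynomial.mem_lifts _).1 h2
  have h3 : Polynomial.aeval t q = 0 := by
    rw [Polynomial.aeval_def, Polynomial.eval₂_eq_eval_map, hq, ← Polynomial.eval₂_eq_eval_map,
      ← Polynomial.aeval_def, hp]
  have h4 : q = 0 := transcendental_iff.1 ht q h3
  rw [h4, Polynomial.map_zero] at hq
  exact hp0 ((Polynomial.map_eq_zero_iff Subtype.val_injective).1 hq.symm)

theorem spec_up (D : Data k) (y : L) : SpecAt D (algebraMap L L1 y) ↔ SpecAt D y := by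
  unfold SpecAt
  refine exists_congr fun c => and_congr_right fun _ => ?_
  rw [IsScalarTower.algebraMap_apply k L L1, (algebraMap L L1).injective.eq_iff]

theorem rel_up (D : Data k) (y z : L) :
    Rel D (algebraMap L L1 y) (algebraMap L L1 z) ↔ Rel D y z := by
  unfold Pool.Agent.Y645.UM.Rel
  refine exists_congr fun N => and_congr_right fun _ => ?_
  have h : ![algebraMap L L1 y, algebraMap L L1 z] = (algebraMap L L1) ∘ ![y, z] := by
    funext i
    fin_cases i <;> rfl
  rw [h, MvPolynomial.aeval_algebraMap_apply]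
  exact map_eq_zero_iff _ (algebraMap L L1).injective

theorem spec_t (D : Data k) (ht : Transcendental L t) : ¬ SpecAt D t := by
  rintro ⟨c, -, hc⟩
  apply ht
  rw [hc, IsScalarTower.algebraMap_apply k L L1]
  exact isAlgebraic_algebraMap _

theorem rel_t {D : Data k} (hD : Good D) (ht : Transcendental L t) (y : L) :
    ¬ Rel D (algebraMap L L1 y) t := by
  intro h
  refine not_alg (k := k) ht {algebraMap L L1 y} ?_ ((hD.1 L1).2.2.2.1 _ _ h)
  rintro _ rfl
  exact ⟨y, rfl⟩

theorem isoRk_ext [Finite J] {D : Data k} (hD : Good D) (ht : Transcendental L t) (x : J → L) :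
    isoRk D (ext (up L1 x) t) = isoRk D x + 1 := by
  obtain ⟨hr, hs, htr, -, -⟩ := hD.1 L1
  have hsome : ∀ i : J, ¬ SpecAt D (x i) → ¬ SpecAt D (ext (up L1 x) t (some i)) := fun i hi => by
    change ¬ SpecAt D (algebraMap L L1 (x i))
    rwa [spec_up]
  have hnone : ¬ SpecAt D (ext (up L1 x) t none) := spec_t D ht
  let R := fun i j : {i : J // ¬ SpecAt D (x i)} => Rel D (x i) (x j)
  let R' := fun i j : {o : Option J // ¬ SpecAt D (ext (up L1 x) t o)} =>
    Rel D (ext (up L1 x) t i) (ext (up L1 x) t j)
  have heq : Equivalence R' := ⟨fun a => hr _, fun h => hs _ _ h, fun h h' => htr _ _ _ h h'⟩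
  let f : Option (Quot R) → Quot R' := fun o => o.elim (Quot.mk _ ⟨none, hnone⟩)
    (Quot.lift (fun i => Quot.mk _ ⟨some i.1, hsome i.1 i.2⟩)
      (fun i j h => Quot.sound ((rel_up D (x i) (x j)).2 h)))
  have hbij : Function.Bijective f := by
    constructor
    · rintro (_ | a) (_ | b) hab
      · rfl
      · induction b using Quot.ind with | _ b =>
        have h1 : R' ⟨none, hnone⟩ ⟨some b.1, hsome b.1 b.2⟩ := (heq.quot_mk_eq_iff _ _).1 hab
        exact absurd (hs _ _ h1) (rel_t hD ht (x b))
      · induction a using Quot.ind with | _ a =>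
        have h1 : R' ⟨some a.1, hsome a.1 a.2⟩ ⟨none, hnone⟩ := (heq.quot_mk_eq_iff _ _).1 hab
        exact absurd h1 (rel_t hD ht (x a))
      · induction a using Quot.ind with | _ a =>
        induction b using Quot.ind with | _ b =>
        have h1 : R' ⟨some a.1, hsome a.1 a.2⟩ ⟨some b.1, hsome b.1 b.2⟩ :=
          (heq.quot_mk_eq_iff _ _).1 hab
        exact congrArg some (Quot.sound ((rel_up D (x a) (x b)).1 h1))
    · intro q
      induction q using Quot.ind with | _ q =>
      obtain ⟨_ | i, hi⟩ := q
      · exact ⟨none, rfl⟩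
      · refine ⟨some (Quot.mk _ ⟨i, ?_⟩), rfl⟩
        have h1 : ¬ SpecAt D (algebraMap L L1 (x i)) := hi
        rwa [spec_up] at h1
  have h1 := Nat.card_eq_of_bijective f hbij
  rw [Finite.card_option] at h1
  exact h1.symm

/-- the basis with the new coordinate -/
def zz (L1 : Type) [Field L1] [Algebra L L1] (t : L1) (x : J → L) (B : Finset J) : Option B → L1 :=
  fun o => o.elim t (fun b => algebraMap L L1 (x b))

theorem ind_up {ι : Type} {y : ι → L} (h : AlgebraicIndependent k y) :
    AlgebraicIndependent k (fun b : ι => algebraMap L L1 (y b)) :=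
  h.map' (f := IsScalarTower.toAlgHom k L L1) (algebraMap L L1).injective

theorem ind_zz (ht : Transcendental L t) (x : J → L) (B : Finset J)
    (h : AlgebraicIndependent k (fun b : B => x b)) : AlgebraicIndependent k (zz L1 t x B) := by
  have h1 : AlgebraicIndependent k (fun b : B => algebraMap L L1 (x b)) := ind_up h
  have h2 : ¬ IsAlgebraic (Algebra.adjoin k (Set.range fun b : B => algebraMap L L1 (x b))) t := by
    refine not_alg ht _ ?_
    rintro _ ⟨b, rfl⟩
    exact ⟨_, rfl⟩
  exact (h1.option_iff_transcendental t).2 h2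

theorem alg_up {ι : Type} {y : ι → L} (h : AlgebraicIndependent k y) (a : L)
    (ha : IsAlgebraic (Algebra.adjoin k (Set.range y)) a) :
    IsAlgebraic (Algebra.adjoin k (Set.range fun b : ι => algebraMap L L1 (y b)))
      (algebraMap L L1 a) := by
  by_contra hcon
  have h2 := ((ind_up (L1 := L1) h).option_iff_transcendental (algebraMap L L1 a)).2 hcon
  have h3 : AlgebraicIndependent k (fun o : Option ι => o.elim a y) := by
    rw [← AlgHom.algebraicIndependent_iff (IsScalarTower.toAlgHom k L L1)
      (algebraMap L L1).injective]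
    have h5 : (fun o : Option ι => o.elim (algebraMap L L1 a) fun b => algebraMap L L1 (y b)) =
        (IsScalarTower.toAlgHom k L L1) ∘ fun o : Option ι => o.elim a y := by
      funext o
      cases o <;> rfl
    rw [← h5]
    exact h2
  exact (h.option_iff_transcendental a).1 h3 ha

theorem td_ext_le [Finite J] (x : J → L) (B : Finset J)
    (hBi : AlgebraicIndependent k (fun b : B => x b))
    (hBa : ∀ j, IsAlgebraic (Algebra.adjoin k (x '' (B : Set J))) (x j)) :
    td k (Pool.Agent.Y645.UP.ext (up L1 x) t) ≤ B.card + 1 := by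
  classical
  have himg : x '' (B : Set J) = Set.range (fun b : B => x b) := by
    ext y
    simp
  have hcard : Fintype.card (Option B) = B.card + 1 := by
    rw [Fintype.card_option, Fintype.card_coe]
  rw [← hcard]
  refine le_trans (td_le_of_alg (y := zz L1 t x B) ?_) (td_le_card (zz L1 t x B))
  intro o
  cases o with
  | none => exact alg_self ⟨none, rfl⟩
  | some j =>
    have h4 := hBa j
    rw [himg] at h4
    have h1 := alg_up (L1 := L1) hBi (x j) h4
    refine alg_mono ?_ h1
    rintro _ ⟨b, rfl⟩
    exact ⟨some b, rfl⟩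

theorem le_td_ext [Finite J] (ht : Transcendental L t) (x : J → L) (B : Finset J)
    (hBi : AlgebraicIndependent k (fun b : B => x b)) :
    B.card + 1 ≤ td k (Pool.Agent.Y645.UP.ext (up L1 x) t) := by
  classical
  have hcard : Fintype.card (Option B) = B.card + 1 := by
    rw [Fintype.card_option, Fintype.card_coe]
  rw [← hcard]
  refine card_le_td (ind_zz ht x B hBi) ?_
  intro o
  cases o with
  | none => exact alg_self ⟨none, rfl⟩
  | some b => exact alg_self ⟨some b.1, rfl⟩

theorem td_ext [Finite J] (ht : Transcendental L t) (x : J → L) :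
    td k (Pool.Agent.Y645.UP.ext (up L1 x) t) = td k x + 1 := by
  obtain ⟨B, hBc, hBi, hBa⟩ := exists_basis (k := k) x
  rw [← hBc]
  exact le_antisymm (td_ext_le x B hBi hBa) (le_td_ext ht x B hBi)

theorem val (x : J → L) (f : MvPolynomial (Option J) k) :
    aeval (ext (up L1 x) t) f = Polynomial.aeval t ((optionEquivLeft k J f).map
      ((aeval x : MvPolynomial J k →ₐ[k] L) : MvPolynomial J k →+* L)) := by
  have h : (aeval (ext (up L1 x) t) : MvPolynomial (Option J) k →ₐ[k] L1) =
      ((Polynomial.aeval t : Polynomial L →ₐ[L] L1).restrictScalars k).comp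
        ((Polynomial.mapAlgHom (aeval x : MvPolynomial J k →ₐ[k] L)).comp
          (optionEquivLeft k J).toAlgHom) := by
    refine MvPolynomial.algHom_ext fun o => ?_
    cases o <;> simp [Pool.Agent.Y645.UP.ext, up]
  rw [h]
  rfl

theorem val_zero_iff (ht : Transcendental L t) (x : J → L) (f : MvPolynomial (Option J) k) :
    aeval (ext (up L1 x) t) f = 0 ↔ ∀ i, aeval x ((optionEquivLeft k J f).coeff i) = 0 := by
  rw [val]
  constructor
  · intro h i
    have h1 := transcendental_iff.1 ht _ h
    have h2 := congrArg (fun p => Polynomial.coeff p i) h1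
    simpa [Polynomial.coeff_map] using h2
  · intro h
    have h1 : (optionEquivLeft k J f).map
        ((aeval x : MvPolynomial J k →ₐ[k] L) : MvPolynomial J k →+* L) = 0 := by
      ext i
      simpa [Polynomial.coeff_map] using h i
    rw [h1, map_zero]

theorem clean_up {D : Data k} {x : J → L} (hx : Clean D x) : Clean D (up L1 x) := by
  refine ⟨fun i hi => hx.1 i ((spec_up D (x i)).1 hi), fun i j hij h => ?_⟩
  have h1 := hx.2 i j hij ((rel_up D (x i) (x j)).1 h)
  exact (transcendental_algebraMap_iff (algebraMap L L1).injective).2 h1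

end

theorem t_MASK : Pool.Agent.Y645.UP.S_MASK := by
  intro k _ D hD hP J _ L _ _ x hx
  have htr : ∀ (F : Type) [Field F], Transcendental F (algebraMap (Polynomial F)
      (FractionRing (Polynomial F)) Polynomial.X) := fun F _ =>
    (transcendental_algebraMap_iff (IsFractionRing.injective _ _)).2
      (Polynomial.transcendental_X F)
  obtain ⟨g, hg, hg'⟩ := hP J (FractionRing (Polynomial L)) (up _ x)
    (algebraMap (Polynomial L) (FractionRing (Polynomial L)) Polynomial.X) (clean_up hx)
    (not_alg (htr L) _ (by rintro _ ⟨b, rfl⟩; exact ⟨_, rfl⟩))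
  rw [Ne, val_zero_iff (htr L), not_forall] at hg
  obtain ⟨i, hi⟩ := hg
  refine ⟨_, hi, fun L' _ _ x' hsp hlt => ?_⟩
  have h1 := hg' (FractionRing (Polynomial L')) (up _ x')
    (algebraMap (Polynomial L') (FractionRing (Polynomial L')) Polynomial.X) ?_ ?_
  · exact (val_zero_iff (htr L') x' g).1 h1 i
  · intro f hf
    rw [val_zero_iff (htr L)] at hf
    rw [val_zero_iff (htr L')]
    exact fun n => hsp _ (hf n)
  · rw [isoRk_ext hD (htr L'), isoRk_ext hD (htr L), td_ext (htr L'), td_ext (htr L)]
    omega

end Pool.Agent.Y459.UP
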